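import Mathlib

set_option autoImplicit false

namespace Pool.Agent.Results.MP_4d4a97_an.Counterexample

open Set MeasureTheory Cardinal
open scoped Pointwise

/-- `R a b f D g`: the function `g` with domain `D` lies in the closure of the `f i` on `(a, b)`
under rational combinations and composition -/
inductive R (a b : ℝ) {n : ℕ} (f : Fin n → ℝ → ℝ) : Set ℝ → (ℝ → ℝ) → Prop
  | base (i : Fin n) : R a b f (Ioo a b) (f i)
  | rat (m : ℕ) (D : Fin m → Set ℝ) (g : Fin m → ℝ → ℝ) (P Q : MvPolynomial (Fin m) ℝ) :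
      (∀ j, R a b f (D j) (g j)) →
      R a b f {x | x ∈ Ioo a b ∧ (∀ j, x ∈ D j) ∧ MvPolynomial.eval (fun j => g j x) Q ≠ 0}
        (fun x => MvPolynomial.eval (fun j => g j x) P / MvPolynomial.eval (fun j => g j x) Q)
  | comp (D E : Set ℝ) (h k : ℝ → ℝ) : R a b f D h → R a b f E k →
      R a b f {x | x ∈ E ∧ k x ∈ D} (fun x => h (k x))

noncomputable def cf : (ℕ → Bool) → ℝ := cantorFunction (1 / 3)

lemma cf_bd (s : ℕ → Bool) : 0 ≤ cf s ∧ cf s ≤ 3 / 2 := by
  refine ⟨tsum_nonneg fun _ => cantorFunctionAux_nonneg (by norm_num), ?_⟩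
  have h := hasSum_geometric_of_lt_one (r := (1 / 3 : ℝ)) (by norm_num) (by norm_num)
  refine (hasSum_le (fun n => ?_)
    (summable_cantor_function s (c := 1 / 3) (by norm_num) (by norm_num)).hasSum h).trans
    (by norm_num)
  cases e : s n
  · rw [cantorFunctionAux_false e]; positivity
  · rw [cantorFunctionAux_true e]

lemma cf_null : volume (range cf) = 0 := by
  have h1 : range cf ⊆ (1 / 3 : ℝ) • range cf ∪ ((1 : ℝ) +ᵥ ((1 / 3 : ℝ) • range cf)) := by
    rintro _ ⟨s, rfl⟩
    have := cantorFunction_succ s (c := 1 / 3) (by norm_num) (by norm_num)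
    cases e : s 0
    · exact Or.inl ⟨_, ⟨fun n => s (n + 1), rfl⟩, by simpa [e, cf] using this.symm⟩
    · exact Or.inr ⟨_, ⟨_, ⟨fun n => s (n + 1), rfl⟩, rfl⟩, by simpa [e, cf] using this.symm⟩
  have h2 := (measure_mono (μ := volume) h1).trans (measure_union_le _ _)
  rw [measure_vadd, Measure.addHaar_smul] at h2
  have h3 : volume (range cf) ≠ ⊤ := ne_top_of_le_ne_top (measure_Icc_lt_top (a := 0)
    (b := 3 / 2)).ne (measure_mono (by rintro _ ⟨s, rfl⟩; exact cf_bd s))
  lift volume (range cf) to NNReal using h3 with t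
  rw [← ENNReal.ofReal_coe_nnreal, ← ENNReal.ofReal_mul (abs_nonneg _),
    ← ENNReal.ofReal_add (by positivity) (by positivity),
    ENNReal.ofReal_le_ofReal_iff (by positivity)] at h2
  simp only [Module.finrank_self, pow_one] at h2
  rw [abs_of_pos (by norm_num)] at h2
  have : (t : ℝ) = 0 := le_antisymm (by linarith) t.2
  exact_mod_cast this

def mix (s t : ℕ → Bool) (n : ℕ) : Bool := if n % 2 = 0 then s (n / 2) else t (n / 2)

lemma cf_mix (s t : ℕ → Bool) :
    cf (mix s fun _ => false) + cf (mix (fun _ => false) t) = cf (mix s t) := by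
  unfold cf cantorFunction
  rw [← Summable.tsum_add (summable_cantor_function _ (by norm_num) (by norm_num))
    (summable_cantor_function _ (by norm_num) (by norm_num))]
  refine tsum_congr fun n => ?_
  unfold cantorFunctionAux mix
  split_ifs <;> simp

lemma mix_inj {s t s' t' : ℕ → Bool} (h : cf (mix s t) = cf (mix s' t')) : s = s' ∧ t = t' := by
  have := cantorFunction_injective (c := 1 / 3) (by norm_num) (by norm_num) h
  refine ⟨funext fun n => ?_, funext fun n => ?_⟩
  · have := congrFun this (2 * n)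
    simpa [mix] using this
  · have := congrFun this (2 * n + 1)
    unfold mix at this
    rwa [if_neg (by omega), if_neg (by omega), show (2 * n + 1) / 2 = n by omega] at this

lemma cf_meas : Measurable cf := by
  refine Continuous.measurable (continuous_tsum (u := fun n => (1 / 3 : ℝ) ^ n) (fun n => ?_)
    (summable_geometric_of_lt_one (by norm_num) (by norm_num)) fun n s => ?_)
  · exact (continuous_of_discreteTopology (f := fun b : Bool => cond b ((1 / 3 : ℝ) ^ n) 0)).comp
      (continuous_apply n)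
  · cases e : s n
    · rw [cantorFunctionAux_false e, norm_zero]; positivity
    · rw [cantorFunctionAux_true e, Real.norm_of_nonneg (by positivity)]

lemma univ_pair : ∃ φ ψ : ℝ → ℝ, IntegrableOn φ (Ioo (-1) 2) ∧ IntegrableOn ψ (Ioo (-1) 2) ∧
    ∀ F : ℝ → ℝ, Continuous F → ∃ c, ∀ x, φ x + c ∈ Ioo (-1 : ℝ) 2 ∧ ψ (φ x + c) = F x := by
  classical
  obtain ⟨e, he, hi⟩ := MeasurableSpace.measurable_injection_nat_bool_of_countablySeparated ℝ
  obtain ⟨ι, -, hι⟩ :=
    MeasurableSpace.measurable_injection_nat_bool_of_countablySeparated (ℚ → ℝ)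
  let z : ℝ × C(ℝ, ℝ) → ℝ := fun p => cf (mix (e p.1) (ι fun q => p.2 q))
  have hz : Function.Injective z := by
    rintro ⟨x, F⟩ ⟨y, G⟩ h
    obtain ⟨h1, h2⟩ := mix_inj h
    refine Prod.ext (hi h1) (ContinuousMap.ext (congrFun ?_))
    exact Rat.denseRange_cast.equalizer F.continuous G.continuous (hι h2)
  refine ⟨fun x => cf (mix (e x) fun _ => false), Function.extend z (fun p => p.2 p.1) 0,
    ?_, ?_, fun F hF => ⟨cf (mix (fun _ => false) (ι fun q => F q)), fun x => ?_⟩⟩
  · refine Measure.integrableOn_of_bounded (M := 3 / 2) measure_Ioo_lt_top.ne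
      (cf_meas.comp (measurable_pi_lambda _ fun n => ?_)).aestronglyMeasurable
      (Filter.Eventually.of_forall fun x => by
        rw [Real.norm_of_nonneg (cf_bd _).1]; exact (cf_bd _).2)
    unfold mix
    split_ifs
    · exact (measurable_pi_apply _).comp he
    · exact measurable_const
  · refine ((integrable_zero ℝ ℝ volume).congr ?_).integrableOn
    filter_upwards [measure_eq_zero_iff_ae_notMem.1 cf_null] with y hy
    rw [Function.extend_apply' _ _ _ (by rintro ⟨p, rfl⟩; exact hy ⟨_, rfl⟩)]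
  · rw [cf_mix]
    have := cf_bd (mix (e x) (ι fun q => F q))
    exact ⟨⟨by linarith, by linarith⟩, hz.extend_apply _ _ (x, ⟨F, hF⟩)⟩

theorem result : ∃ (a b : ℝ) (n : ℕ) (f : Fin n → ℝ → ℝ), a < b ∧
    (∀ i, IntegrableOn (f i) (Ioo a b)) ∧
    ∀ (g : ℝ → ℝ) (α β : ℝ), a ≤ α → α < β → β ≤ b → IntegrableOn g (Ioo α β) →
      ∃ E h, R a b f E h ∧ Ioo α β ⊆ E ∧ ∀ x ∈ Ioo α β, h x = ∫ t in α..x, g t := by
  obtain ⟨φ, ψ, h1, h2, h3⟩ := univ_pair
  refine ⟨-1, 2, 2, ![φ, ψ], by norm_num, fun i => by fin_cases i <;> assumption,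
    fun g α β ha hab hb hg => ?_⟩
  have hG : Integrable (indicator (Ioo α β) g) := (integrable_indicator_iff measurableSet_Ioo).2 hg
  obtain ⟨c, hc⟩ := h3 _ (intervalIntegral.continuous_primitive
    (fun _ _ => hG.intervalIntegrable) α)
  have r1 := R.rat (a := -1) (b := 2) (f := ![φ, ψ]) 1 (fun _ => Ioo (-1) 2) (fun _ => φ)
    (MvPolynomial.X 0 + MvPolynomial.C c) 1 fun _ => R.base 0
  refine ⟨_, _, R.comp _ _ _ _ (R.base 1) r1, fun x hx => ?_, fun x hx => ?_⟩
  · have : x ∈ Ioo (-1 : ℝ) 2 := ⟨ha.trans_lt hx.1, hx.2.trans_le hb⟩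
    exact ⟨⟨this, fun _ => this, by simp⟩, by simpa using (hc x).1⟩
  · have e : ψ (φ x + c) = ∫ t in α..x, g t := by
      rw [(hc x).2]
      refine intervalIntegral.integral_congr_ae (Filter.Eventually.of_forall fun t ht => ?_)
      rw [uIoc_of_le hx.1.le] at ht
      exact indicator_of_mem (show t ∈ Ioo α β from ⟨ht.1, ht.2.trans_lt hx.2⟩) _
    simpa using e

end Pool.Agent.Results.MP_4d4a97_an.Counterexample
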